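import Pool.Agent.Helper75.KS.GoalsX

/-!
# Packet KS-LLN: the points of the exponential model fill the line
-/

namespace Pool.Agent.Helper20.KS

open MeasureTheory Filter Topology Finset
open Pool.Agent.Helper44.KS Pool.Agent.Helper75.KS
open Pool.Agent.Helper89.GP (LX po Ex Pr hh Ch)

/-- The squared deviations are integrable. -/
theorem dev_int (h1 : PrbStmt) (h2 : GmmStmt) {n : ℕ} (i j : Fin n) (c : ℝ) :
    Integrable (fun x : Fin n → ℝ => (x j - x i - c) ^ 2) (P0 n) := by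
  have := h1.1 n
  have hj : MemLp (fun x : Fin n → ℝ => x j) 2 (P0 n) :=
    (memLp_two_iff_integrable_sq (measurable_pi_apply j).aestronglyMeasurable).2 (h2 n i j).2.2.1
  have hi : MemLp (fun x : Fin n → ℝ => x i) 2 (P0 n) :=
    (memLp_two_iff_integrable_sq (measurable_pi_apply i).aestronglyMeasurable).2 (h2 n i i).2.2.1
  have h := (hj.sub hi).sub (memLp_const (μ := P0 n) c)
  exact h.integrable_sq

/-- Chebyshev for two points. -/
theorem cheb (h1 : PrbStmt) (h2 : GmmStmt) {n : ℕ} (i j : Fin n) (t : ℝ) (ht : 0 < t) :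
    (P0 n).real {x | t ≤ |x j - x i - ((j : ℝ) - (i : ℝ))|} ≤ |(j : ℝ) - (i : ℝ)| / t ^ 2 := by
  have := h1.1 n
  have hint := dev_int h1 h2 i j ((j : ℝ) - (i : ℝ))
  have hm := mul_meas_ge_le_integral_of_nonneg (μ := P0 n)
    (Eventually.of_forall fun x => sq_nonneg (x j - x i - ((j : ℝ) - (i : ℝ)))) hint (t ^ 2)
  rw [(h2 n i j).2.2.2] at hm
  have hset : {x : Fin n → ℝ | t ^ 2 ≤ (x j - x i - ((j : ℝ) - (i : ℝ))) ^ 2} =
      {x | t ≤ |x j - x i - ((j : ℝ) - (i : ℝ))|} := by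
    ext x
    simp only [Set.mem_ofPred_eq]
    rw [← sq_abs (x j - x i - ((j : ℝ) - (i : ℝ)))]
    constructor
    · intro h
      exact le_of_sq_le_sq h (abs_nonneg _) |> fun h => h
    · intro h
      exact pow_le_pow_left₀ ht.le h 2
  rw [hset] at hm
  rw [le_div_iff₀ (by positivity), mul_comm]
  exact hm

/-- Packet LLN. -/
theorem lln (h1 : PrbStmt) (h2 : GmmStmt) (h3 : RieStmt) : LlnStmt := by
  intro G ε η hG hGc hε hη
  -- the bound of the support
  obtain ⟨L, hL1, hL⟩ : ∃ L : ℝ, 1 ≤ L ∧ ∀ y, L < |y| → G y = 0 := by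
    obtain ⟨L0, hL0⟩ := hGc.isCompact.isBounded.exists_norm_le
    refine ⟨max 1 L0, le_max_left _ _, fun y hy => ?_⟩
    by_contra hne
    have := hL0 y (subset_tsupport _ hne)
    rw [Real.norm_eq_abs] at this
    exact absurd (lt_of_lt_of_le hy this) (not_lt.2 (le_max_right _ _))
  -- the bound of the function
  obtain ⟨B, hB1, hB⟩ : ∃ B : ℝ, 1 ≤ B ∧ ∀ y, |G y| ≤ B := by
    obtain ⟨B0, hB0⟩ := hGc.exists_bound_of_continuous hG
    exact ⟨max 1 B0, le_max_left _ _, fun y =>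
      ((Real.norm_eq_abs (G y)) ▸ hB0 y).trans (le_max_right _ _)⟩
  have hB0 : 0 < B := by linarith
  have hL0 : 0 < L := by linarith
  -- the modulus
  set ε1 : ℝ := ε / (24 * L) with hε1
  have hε1p : 0 < ε1 := by positivity
  obtain ⟨δ, hδ0, hδ⟩ : ∃ δ : ℝ, 0 < δ ∧ ∀ s t, |s - t| < δ → |G s - G t| < ε1 := by
    have huc := hGc.uniformContinuous_of_continuous hG
    rw [Metric.uniformContinuous_iff] at huc
    obtain ⟨δ, hδ0, hδ⟩ := huc ε1 hε1p
    refine ⟨δ, hδ0, fun s t hst => ?_⟩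
    have := hδ (a := s) (b := t) (by rwa [Real.dist_eq])
    rwa [Real.dist_eq] at this
  have hmod : ∀ s t, |G s - G t| ≤ ε1 + 2 * B / δ ^ 2 * (s - t) ^ 2 := by
    intro s t
    rcases lt_or_ge |s - t| δ with h | h
    · have h1 := hδ s t h
      have : 0 ≤ 2 * B / δ ^ 2 * (s - t) ^ 2 := by positivity
      linarith
    · have h1 : |G s - G t| ≤ 2 * B := by
        have := abs_sub (G s) (G t)
        have := hB s
        have := hB t
        linarith
      have h2 : 2 * B ≤ 2 * B / δ ^ 2 * (s - t) ^ 2 := by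
        have h3 : δ ^ 2 ≤ (s - t) ^ 2 := by
          rw [← sq_abs (s - t)]
          exact pow_le_pow_left₀ hδ0.le h 2
        rw [div_mul_eq_mul_div, le_div_iff₀ (by positivity)]
        exact mul_le_mul_of_nonneg_left h3 (by positivity)
      linarith
  obtain ⟨S1, hS11, hS1⟩ := h3 G L (ε / 2) hG hL1 hL (by positivity)
  set A : ℝ := 144 * L ^ 2 * B / (ε * δ ^ 2) + 6 / L with hA
  have hA0 : 0 < A := by positivity
  refine ⟨max S1 (A / η), 2 * L + 2, hS11.trans (le_max_left _ _), by positivity, ?_⟩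
  intro S n r hS hr1 hr2
  have hSS1 : S1 ≤ S := (le_max_left _ _).trans hS
  have hS1' : 1 ≤ S := hS11.trans hSS1
  have hS0 : 0 < S := by linarith
  have hSA : A / η ≤ S := (le_max_right _ _).trans hS
  have := h1.1 n
  have hrie := hS1 S n r hSS1 (by nlinarith) (by nlinarith)
  set m : ℕ := ⌈2 * L * S⌉₊ with hm
  have hLS : 1 ≤ L * S := by nlinarith
  have hm1 : 2 * L * S ≤ (m : ℝ) := Nat.le_ceil _
  have hm2 : (m : ℝ) < 2 * L * S + 1 := Nat.ceil_lt_add_one (by positivity)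
  have hm3 : (m : ℝ) ≤ 3 * (L * S) := by linarith
  have hmr : m ≤ (r : ℕ) := by
    have : (m : ℝ) ≤ ((r : ℕ) : ℝ) := by nlinarith
    exact_mod_cast this
  have hmn : (r : ℕ) + m < n := by
    have : (((r : ℕ) : ℝ)) + (m : ℝ) < (n : ℝ) := by nlinarith
    exact_mod_cast this
  -- the two far indices
  set kp : Fin n := ⟨(r : ℕ) + m, hmn⟩ with hkp
  set km : Fin n := ⟨(r : ℕ) - m, lt_of_le_of_lt (Nat.sub_le _ _) r.2⟩ with hkm
  -- the near indices
  set N : Finset (Fin n) := univ.filter fun k : Fin n => (r : ℕ) < (k : ℕ) + m ∧ (k : ℕ) < (r : ℕ) + m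
    with hN
  have hNc : N.card ≤ 2 * m := by
    have h : N.card ≤ (Finset.Ico ((r : ℕ) - m) ((r : ℕ) + m)).card := by
      apply Finset.card_le_card_of_injOn (fun k : Fin n => (k : ℕ))
      · intro k hk
        have hk' := (Finset.mem_filter.1 (Finset.mem_coe.1 hk)).2
        simp only [Finset.coe_Ico, Set.mem_Ico]
        omega
      · intro a _ b _ hab
        exact Fin.ext hab
    rw [Nat.card_Ico] at h
    omega
  have hNc' : (N.card : ℝ) ≤ 2 * m := by exact_mod_cast hNc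
  -- the sum of the squares
  set W : (Fin n → ℝ) → ℝ := fun x => ∑ k ∈ N, (x k - x r - (((k : ℕ) : ℝ) - ((r : ℕ) : ℝ))) ^ 2 with hW
  have hWint : Integrable W (P0 n) := by
    apply integrable_finsetSum
    intro k _
    exact dev_int h1 h2 r k _
  have hWle : ∫ x, W x ∂(P0 n) ≤ 2 * (m : ℝ) ^ 2 := by
    rw [hW, integral_finsetSum _ fun k _ => dev_int h1 h2 r k _]
    have : ∀ k ∈ N, ∫ x, (x k - x r - (((k : ℕ) : ℝ) - ((r : ℕ) : ℝ))) ^ 2 ∂(P0 n) ≤ (m : ℝ) := by
      intro k hk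
      rw [(h2 n r k).2.2.2]
      have hk' := (Finset.mem_filter.1 hk).2
      have e1 : (((r : ℕ) : ℝ)) ≤ ((k : ℕ) : ℝ) + m := by exact_mod_cast hk'.1.le
      have e2 : (((k : ℕ) : ℝ)) ≤ ((r : ℕ) : ℝ) + m := by exact_mod_cast hk'.2.le
      rw [abs_le]
      constructor <;> linarith
    calc ∑ k ∈ N, ∫ x, (x k - x r - (((k : ℕ) : ℝ) - ((r : ℕ) : ℝ))) ^ 2 ∂(P0 n)
        ≤ ∑ _k ∈ N, (m : ℝ) := Finset.sum_le_sum this
      _ = (N.card : ℝ) * m := by rw [Finset.sum_const, nsmul_eq_mul]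
      _ ≤ 2 * m * m := mul_le_mul_of_nonneg_right hNc' (Nat.cast_nonneg _)
      _ = 2 * (m : ℝ) ^ 2 := by ring
  have hW0 : ∀ x, 0 ≤ W x := fun x => Finset.sum_nonneg fun k _ => sq_nonneg _
  set c : ℝ := ε * δ ^ 2 * S ^ 3 / (8 * B) with hc
  have hc0 : 0 < c := by positivity
  have hPW : (P0 n).real {x | c ≤ W x} ≤ 144 * L ^ 2 * B / (ε * δ ^ 2) / S := by
    have hm' := mul_meas_ge_le_integral_of_nonneg (μ := P0 n) (Eventually.of_forall hW0) hWint c
    have h4 : c * (P0 n).real {x | c ≤ W x} ≤ 18 * (L * S) ^ 2 := by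
      refine hm'.trans (hWle.trans ?_)
      have : (m : ℝ) ^ 2 ≤ (3 * (L * S)) ^ 2 := pow_le_pow_left₀ (Nat.cast_nonneg _) hm3 2
      nlinarith
    have h5 : (P0 n).real {x | c ≤ W x} ≤ 18 * (L * S) ^ 2 / c := by
      rw [le_div_iff₀ hc0, mul_comm]
      exact h4
    refine h5.trans (le_of_eq ?_)
    rw [hc]
    field_simp
    ring
  have hPp : (P0 n).real {x | L * S ≤ |x kp - x r - (((kp : ℕ) : ℝ) - ((r : ℕ) : ℝ))|} ≤ 3 / L / S := by
    refine (cheb h1 h2 r kp (L * S) (by positivity)).trans ?_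
    have h4 : |(((kp : ℕ) : ℝ)) - ((r : ℕ) : ℝ)| = m := by
      have : (((kp : ℕ) : ℝ)) - ((r : ℕ) : ℝ) = m := by
        rw [hkp]
        push_cast
        ring
      rw [this]
      exact abs_of_nonneg (Nat.cast_nonneg _)
    rw [h4]
    rw [div_div, div_le_div_iff₀ (by positivity) (by positivity)]
    nlinarith [mul_le_mul_of_nonneg_right hm3 (show 0 ≤ L * S by positivity)]
  have hkmr : (((km : ℕ) : ℝ)) - ((r : ℕ) : ℝ) = -(m : ℝ) := by
    rw [hkm]
    simp only
    rw [Nat.cast_sub hmr]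
    ring
  have hkpr : (((kp : ℕ) : ℝ)) - ((r : ℕ) : ℝ) = m := by
    rw [hkp]
    push_cast
    ring
  have hPm : (P0 n).real {x | L * S ≤ |x km - x r - (((km : ℕ) : ℝ) - ((r : ℕ) : ℝ))|} ≤ 3 / L / S := by
    refine (cheb h1 h2 r km (L * S) (by positivity)).trans ?_
    have h4 : |(((km : ℕ) : ℝ)) - ((r : ℕ) : ℝ)| = m := by
      rw [hkmr, abs_neg]
      exact abs_of_nonneg (Nat.cast_nonneg _)
    rw [h4]
    rw [div_div, div_le_div_iff₀ (by positivity) (by positivity)]
    nlinarith [mul_le_mul_of_nonneg_right hm3 (show 0 ≤ L * S by positivity)]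
  -- the inclusion
  have hincl : (P0 n).real {x | ε < |(∑ k : Fin n, G ((x k - x r) / S)) / S - ∫ y, G y|} ≤
      (P0 n).real ({x | c ≤ W x} ∪
        ({x | L * S ≤ |x kp - x r - (((kp : ℕ) : ℝ) - ((r : ℕ) : ℝ))|} ∪
          {x | L * S ≤ |x km - x r - (((km : ℕ) : ℝ) - ((r : ℕ) : ℝ))|})) := by
    apply ENNReal.toReal_mono (measure_ne_top _ _)
    apply measure_mono_ae
    filter_upwards [h1.2.1 n] with x hx
    intro hbad
    by_contra hgood
    have hgood' : ¬ (c ≤ W x ∨ (L * S ≤ |x kp - x r - (((kp : ℕ) : ℝ) - ((r : ℕ) : ℝ))| ∨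
        L * S ≤ |x km - x r - (((km : ℕ) : ℝ) - ((r : ℕ) : ℝ))|)) := hgood
    simp only [not_or, not_le] at hgood'
    obtain ⟨g1, g2, g3⟩ := hgood'
    have hbad' : ε < |(∑ k : Fin n, G ((x k - x r) / S)) / S - ∫ y, G y| := hbad
    rw [hkpr, abs_lt] at g2
    rw [hkmr, abs_lt] at g3
    have hmono : ∀ a b : Fin n, a ≤ b → x a ≤ x b := by
      intro a b hab
      rcases eq_or_lt_of_le hab with h | h
      · rw [h]
      · exact (hx.2 a b (by simpa using h)).le
    -- the far terms vanish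
    have hfar : ∀ k : Fin n, k ∉ N → G ((x k - x r) / S) = 0 ∧
        G ((((k : ℕ) : ℝ) - ((r : ℕ) : ℝ)) / S) = 0 := by
      intro k hk
      have hk' : ¬ ((r : ℕ) < (k : ℕ) + m ∧ (k : ℕ) < (r : ℕ) + m) := by
        intro h
        exact hk (Finset.mem_filter.2 ⟨Finset.mem_univ _, h⟩)
      rcases le_or_gt ((r : ℕ) + m) (k : ℕ) with h | h
      · have hk1 : kp ≤ k := by
          rw [Fin.le_def]
          exact h
        have hxk := hmono _ _ hk1
        have hkc : (((r : ℕ) : ℝ)) + m ≤ ((k : ℕ) : ℝ) := by exact_mod_cast h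
        constructor
        · apply hL
          have h5 : L * S < x k - x r := by linarith
          have h6 : L < (x k - x r) / S := by
            rw [lt_div_iff₀ hS0]
            exact h5
          exact h6.trans_le (le_abs_self _)
        · apply hL
          have h5 : L * S < ((k : ℕ) : ℝ) - ((r : ℕ) : ℝ) := by linarith
          have h6 : L < (((k : ℕ) : ℝ) - ((r : ℕ) : ℝ)) / S := by
            rw [lt_div_iff₀ hS0]
            exact h5
          exact h6.trans_le (le_abs_self _)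
      · have h' : (k : ℕ) + m ≤ (r : ℕ) := by
          by_contra hcon
          exact hk' ⟨not_le.1 hcon, h⟩
        have hk1 : k ≤ km := by
          rw [Fin.le_def]
          show (k : ℕ) ≤ (r : ℕ) - m
          omega
        have hxk := hmono _ _ hk1
        have hkc : (((k : ℕ) : ℝ)) + m ≤ ((r : ℕ) : ℝ) := by exact_mod_cast h'
        constructor
        · apply hL
          have h5 : L * S < x r - x k := by linarith
          have h6 : L < -((x k - x r) / S) := by
            rw [← neg_div, lt_div_iff₀ hS0]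
            linarith
          exact h6.trans_le (neg_le_abs _)
        · apply hL
          have h5 : L * S < ((r : ℕ) : ℝ) - ((k : ℕ) : ℝ) := by linarith
          have h6 : L < -((((k : ℕ) : ℝ) - ((r : ℕ) : ℝ)) / S) := by
            rw [← neg_div, lt_div_iff₀ hS0]
            linarith
          exact h6.trans_le (neg_le_abs _)
    have hdiff : |∑ k : Fin n, G ((x k - x r) / S) -
        ∑ k : Fin n, G ((((k : ℕ) : ℝ) - ((r : ℕ) : ℝ)) / S)| ≤
        ε1 * (2 * m) + 2 * B / (δ ^ 2 * S ^ 2) * W x := by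
      rw [← Finset.sum_sub_distrib]
      have h7 : ∑ k : Fin n, (G ((x k - x r) / S) - G ((((k : ℕ) : ℝ) - ((r : ℕ) : ℝ)) / S)) =
          ∑ k ∈ N, (G ((x k - x r) / S) - G ((((k : ℕ) : ℝ) - ((r : ℕ) : ℝ)) / S)) := by
        symm
        apply Finset.sum_subset (Finset.subset_univ _)
        intro k _ hk
        rw [(hfar k hk).1, (hfar k hk).2, sub_zero]
      rw [h7]
      refine (Finset.abs_sum_le_sum_abs _ _).trans ?_
      have h8 : ∀ k ∈ N, |G ((x k - x r) / S) - G ((((k : ℕ) : ℝ) - ((r : ℕ) : ℝ)) / S)| ≤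
          ε1 + 2 * B / (δ ^ 2 * S ^ 2) * (x k - x r - (((k : ℕ) : ℝ) - ((r : ℕ) : ℝ))) ^ 2 := by
        intro k _
        refine (hmod _ _).trans (le_of_eq ?_)
        congr 1
        field_simp
      refine (Finset.sum_le_sum h8).trans ?_
      rw [Finset.sum_add_distrib, Finset.sum_const, nsmul_eq_mul, ← Finset.mul_sum]
      have h9 : (N.card : ℝ) * ε1 ≤ ε1 * (2 * m) := by
        rw [mul_comm]
        exact mul_le_mul_of_nonneg_left hNc' hε1p.le
      linarith
    have hq : |(∑ k : Fin n, G ((x k - x r) / S)) / S -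
        (∑ k : Fin n, G ((((k : ℕ) : ℝ) - ((r : ℕ) : ℝ)) / S)) / S| ≤ ε / 2 := by
      rw [← sub_div, abs_div, abs_of_pos hS0, div_le_iff₀ hS0]
      refine hdiff.trans ?_
      have h10 : ε1 * (2 * m) ≤ ε / 4 * S := by
        have : ε1 * (2 * m) ≤ ε1 * (2 * (3 * (L * S))) :=
          mul_le_mul_of_nonneg_left (by linarith) hε1p.le
        refine this.trans (le_of_eq ?_)
        rw [hε1]
        field_simp
        ring
      have h11 : 2 * B / (δ ^ 2 * S ^ 2) * W x ≤ ε / 4 * S := by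
        have : 2 * B / (δ ^ 2 * S ^ 2) * W x ≤ 2 * B / (δ ^ 2 * S ^ 2) * c :=
          mul_le_mul_of_nonneg_left g1.le (by positivity)
        refine this.trans (le_of_eq ?_)
        rw [hc]
        field_simp
        ring
      linarith
    have := abs_sub_le ((∑ k : Fin n, G ((x k - x r) / S)) / S)
      ((∑ k : Fin n, G ((((k : ℕ) : ℝ) - ((r : ℕ) : ℝ)) / S)) / S) (∫ y, G y)
    linarith
  refine hincl.trans ?_
  refine (measureReal_union_le _ _).trans ?_
  have hU := measureReal_union_le (μ := P0 n)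
    {x | L * S ≤ |x kp - x r - (((kp : ℕ) : ℝ) - ((r : ℕ) : ℝ))|}
    {x | L * S ≤ |x km - x r - (((km : ℕ) : ℝ) - ((r : ℕ) : ℝ))|}
  have hfin : 144 * L ^ 2 * B / (ε * δ ^ 2) / S + (3 / L / S + 3 / L / S) ≤ η := by
    have h12 : 144 * L ^ 2 * B / (ε * δ ^ 2) / S + (3 / L / S + 3 / L / S) = A / S := by
      rw [hA]
      ring
    rw [h12, div_le_iff₀ hS0]
    rw [div_le_iff₀ hη] at hSA
    linarith
  linarith

end Pool.Agent.Helper20.KS
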